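import Pool.Agent.Lib.MP_c11f22_co.K3.Inst
import Pool.Agent.Lib.MP_c11f22_co.Mg.G007
import Pool.Agent.Lib.MP_c11f22_co.Mg.G008
import Pool.Agent.Lib.MP_c11f22_co.Mg.G001
import Pool.Agent.Lib.MP_c11f22_co.Mg.G009
import Pool.Agent.Lib.MP_c11f22_co.Mg.G006
import Pool.Agent.Lib.MP_c11f22_co.Mg.G010
import Pool.Agent.Lib.MP_c11f22_co.Mg.G011
import Pool.Agent.Lib.MP_c11f22_co.Mg.G012
import Pool.Agent.Lib.MP_c11f22_co.Mg.G013
import Pool.Agent.Lib.MP_c11f22_co.Mg.G016
import Pool.Agent.Lib.MP_c11f22_co.Mg.G014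
import Pool.Agent.Lib.MP_c11f22_co.Mg.G017
import Pool.Agent.Lib.MP_c11f22_co.Mg.G015
import Pool.Agent.Lib.MP_c11f22_co.Mg.G018
import Pool.Agent.Lib.MP_c11f22_co.Mg.G019
import Pool.Agent.Lib.MP_c11f22_co.Mg.G002
import Pool.Agent.Lib.MP_c11f22_co.Mg.G020
import Pool.Agent.Lib.MP_c11f22_co.Mg.G021
import Pool.Agent.Lib.MP_c11f22_co.Mg.G004
import Pool.Agent.Lib.MP_c11f22_co.Mg.G023
import Pool.Agent.Lib.MP_c11f22_co.K3.T.P22_34
import Pool.Agent.Lib.MP_c11f22_co.Mg.G025
import Pool.Agent.Lib.MP_c11f22_co.Mg.G022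
import Pool.Agent.Lib.MP_c11f22_co.K3.T.P22_39
import Pool.Agent.Lib.MP_c11f22_co.Mg.G024
import Pool.Agent.Lib.MP_c11f22_co.Mg.G005
import Pool.Agent.Lib.MP_c11f22_co.Mg.G026
import Pool.Agent.Lib.MP_c11f22_co.Mg.G027
import Pool.Agent.Lib.MP_c11f22_co.K3.T.P24_0
import Pool.Agent.Lib.MP_c11f22_co.Mg.G028

/-!
# All roots are refuted
-/

set_option autoImplicit false

namespace Pool.Agent.K3

theorem R9 : Refuted s9 := refuted_of_chkF rnil r9

theorem R10 : Refuted s10 := refuted_of_chkF rnil r10

theorem R11 : Refuted s11 := refuted_of_chkF rnil r11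

theorem R12 : Refuted s12 := refuted_of_chkF rnil r12

theorem R13 : Refuted s13 := refuted_of_chkF rnil r13

theorem R14 : Refuted s14 := refuted_of_chkF rnil r14

theorem R15 : Refuted s15 := refuted_of_chkF rnil r15

theorem R16 : Refuted s16 := refuted_of_chkF rnil r16

theorem R17 : Refuted s17 := refuted_of_chkF rnil r17

theorem R18 : Refuted s18 := refuted_of_chkF rnil r18

theorem R19 : Refuted s19 := refuted_of_chkF rnil r19

theorem R20 : Refuted s20 := refuted_of_chkF rnil r20

theorem R21_0 : Refuted s21_0 := refuted_of_chkF rnil r21_0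

theorem R21_1 : Refuted s21_1 := refuted_of_chkF rnil r21_1

theorem R21_2 : Refuted s21_2 := refuted_of_chkF rnil r21_2

theorem R21_3 : Refuted s21_3 := refuted_of_chkF rnil r21_3

theorem R21_4 : Refuted s21_4 := refuted_of_chkF rnil r21_4

theorem R21_5 : Refuted s21_5 := refuted_of_chkF rnil r21_5

theorem R21_6 : Refuted s21_6 := refuted_of_chkF (rcons R21_4 (rcons R21_2 (rcons R21_3 rnil))) r21_6

theorem R21_7 : Refuted s21_7 := refuted_of_chkF rnil r21_7

theorem R21_8 : Refuted s21_8 := refuted_of_chkF (rcons R21_5 (rcons R21_1 (rcons R21_6 (rcons R21_7 rnil)))) r21_8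

theorem R21_9 : Refuted s21_9 := refuted_of_chkF rnil r21_9

theorem R21_10 : Refuted s21_10 := refuted_of_chkF rnil r21_10

theorem R21_11 : Refuted s21_11 := refuted_of_chkF (rcons R21_10 rnil) r21_11

theorem R21_12 : Refuted s21_12 := refuted_of_chkF (rcons R21_9 rnil) r21_12

theorem R21_13 : Refuted s21_13 := refuted_of_chkF rnil r21_13

theorem R21_14 : Refuted s21_14 := refuted_of_chkF rnil r21_14

theorem R21_15 : Refuted s21_15 := refuted_of_chkF (rcons R21_14 (rcons R21_13 rnil)) r21_15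

theorem R21_16 : Refuted s21_16 := refuted_of_chkF rnil r21_16

theorem R21_17 : Refuted s21_17 := refuted_of_chkF (rcons R21_12 (rcons R21_11 (rcons R21_15 rnil))) r21_17

theorem R21_18 : Refuted s21_18 := refuted_of_chkF rnil r21_18

theorem R21_19 : Refuted s21_19 := refuted_of_chkF rnil r21_19

theorem R21_20 : Refuted s21_20 := refuted_of_chkF (rcons R21_18 (rcons R21_19 rnil)) r21_20

theorem R21_21 : Refuted s21_21 := refuted_of_chkF (rcons R21_16 (rcons R21_17 rnil)) r21_21

theorem R21_22 : Refuted s21_22 := refuted_of_chkF (rcons R21_20 rnil) r21_22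

theorem R21 : Refuted s21 := refuted_of_chkF (rcons R21_0 (rcons R21_8 (rcons R21_21 (rcons R21_22 rnil)))) r21

theorem R22_0 : Refuted s22_0 := refuted_of_chkF rnil r22_0

theorem R22_1 : Refuted s22_1 := refuted_of_chkF rnil r22_1

theorem R22_2 : Refuted s22_2 := refuted_of_chkF rnil r22_2

theorem R22_3 : Refuted s22_3 := refuted_of_chkF rnil r22_3

theorem R22_4 : Refuted s22_4 := refuted_of_chkF rnil r22_4

theorem R22_5 : Refuted s22_5 := refuted_of_chkF rnil r22_5

theorem R22_6 : Refuted s22_6 := refuted_of_chkF rnil r22_6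

theorem R22_7 : Refuted s22_7 := refuted_of_chkF (rcons R22_5 rnil) r22_7

theorem R22_8 : Refuted s22_8 := refuted_of_chkF rnil r22_8

theorem R22_9 : Refuted s22_9 := refuted_of_chkF rnil r22_9

theorem R22_10 : Refuted s22_10 := refuted_of_chkF rnil r22_10

theorem R22_11 : Refuted s22_11 := refuted_of_chkF (rcons R22_10 rnil) r22_11

theorem R22_12 : Refuted s22_12 := refuted_of_chkF rnil r22_12

theorem R22_13 : Refuted s22_13 := refuted_of_chkF (rcons R22_3 (rcons R22_4 rnil)) r22_13

theorem R22_14 : Refuted s22_14 := refuted_of_chkF (rcons R22_13 (rcons R22_6 (rcons R22_7 (rcons R22_8 (rcons R22_9 (rcons R22_12 (rcons R22_11 rnil))))))) r22_14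

theorem R22_15 : Refuted s22_15 := refuted_of_chkF rnil r22_15

theorem R22_16 : Refuted s22_16 := refuted_of_chkF (rcons R22_14 (rcons R22_15 rnil)) r22_16

theorem R22_17 : Refuted s22_17 := refuted_of_chkF (rcons R22_16 rnil) r22_17

theorem R22_18 : Refuted s22_18 := refuted_of_chkF (rcons R22_1 (rcons R22_2 (rcons R22_17 rnil))) r22_18

theorem R22_19 : Refuted s22_19 := refuted_of_chkF rnil r22_19

theorem R22_20 : Refuted s22_20 := refuted_of_chkF rnil r22_20

theorem R22_21 : Refuted s22_21 := refuted_of_chkF (rcons R22_20 rnil) r22_21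

theorem R22_22 : Refuted s22_22 := refuted_of_chkF (rcons R22_21 rnil) r22_22

theorem R22_23 : Refuted s22_23 := refuted_of_chkF rnil r22_23

theorem R22_24 : Refuted s22_24 := refuted_of_chkF (rcons R22_23 rnil) r22_24

theorem R22_25 : Refuted s22_25 := refuted_of_chkF rnil r22_25

theorem R22_26 : Refuted s22_26 := refuted_of_chkF rnil r22_26

theorem R22_27 : Refuted s22_27 := refuted_of_chkF (rcons R22_26 rnil) r22_27

theorem R22_28 : Refuted s22_28 := refuted_of_chkF rnil r22_28

theorem R22_29 : Refuted s22_29 := refuted_of_chkF rnil r22_29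

theorem R22_30 : Refuted s22_30 := refuted_of_chkF (rcons R22_27 (rcons R22_28 rnil)) r22_30

theorem R22_31 : Refuted s22_31 := refuted_of_chkF (rcons R22_30 (rcons R22_29 rnil)) r22_31

theorem R22_32 : Refuted s22_32 := refuted_of_chkF (rcons R22_25 (rcons R22_19 (rcons R22_22 (rcons R22_24 (rcons R22_31 rnil))))) r22_32

theorem R22_33 : Refuted s22_33 := refuted_of_chkF rnil r22_33

theorem R22_34 : Refuted s22_34 := refuted_of_chkF (rcons R22_33 rnil) r22_34

theorem R22_35 : Refuted s22_35 := refuted_of_chkF rnil r22_35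

theorem R22_36 : Refuted s22_36 := refuted_of_chkF (rcons R22_35 rnil) r22_36

theorem R22_37 : Refuted s22_37 := refuted_of_chkF rnil r22_37

theorem R22_38 : Refuted s22_38 := refuted_of_chkF (rcons R22_37 rnil) r22_38

theorem R22_39 : Refuted s22_39 := refuted_of_chkF rnil r22_39

theorem R22_40 : Refuted s22_40 := refuted_of_chkF (rcons R22_38 (rcons R22_39 rnil)) r22_40

theorem R22_41 : Refuted s22_41 := refuted_of_chkF rnil r22_41

theorem R22_42 : Refuted s22_42 := refuted_of_chkF (rcons R22_32 (rcons R22_34 (rcons R22_36 rnil))) r22_42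

theorem R22_43 : Refuted s22_43 := refuted_of_chkF rnil r22_43

theorem R22_44 : Refuted s22_44 := refuted_of_chkF (rcons R22_43 rnil) r22_44

theorem R22_45 : Refuted s22_45 := refuted_of_chkF rnil r22_45

theorem R22_46 : Refuted s22_46 := refuted_of_chkF rnil r22_46

theorem R22_47 : Refuted s22_47 := refuted_of_chkF rnil r22_47

theorem R22_48 : Refuted s22_48 := refuted_of_chkF (rcons R22_47 (rcons R22_46 rnil)) r22_48

theorem R22_49 : Refuted s22_49 := refuted_of_chkF rnil r22_49

theorem R22_50 : Refuted s22_50 := refuted_of_chkF (rcons R22_49 rnil) r22_50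

theorem R22_51 : Refuted s22_51 := refuted_of_chkF (rcons R22_45 (rcons R22_48 (rcons R22_50 rnil))) r22_51

theorem R22_52 : Refuted s22_52 := refuted_of_chkF (rcons R22_51 rnil) r22_52

theorem R22_53 : Refuted s22_53 := refuted_of_chkF (rcons R22_18 rnil) r22_53

theorem R22_54 : Refuted s22_54 := refuted_of_chkF (rcons R22_53 (rcons R22_42 (rcons R22_40 (rcons R22_41 (rcons R22_44 (rcons R22_52 rnil)))))) r22_54

theorem R22_55 : Refuted s22_55 := refuted_of_chkF (rcons R22_0 rnil) r22_55

theorem R22 : Refuted s22 := refuted_of_chkF (rcons R22_55 (rcons R22_54 rnil)) r22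

theorem R23_0 : Refuted s23_0 := refuted_of_chkF rnil r23_0

theorem R23_1 : Refuted s23_1 := refuted_of_chkF (rcons R23_0 rnil) r23_1

theorem R23_2 : Refuted s23_2 := refuted_of_chkF rnil r23_2

theorem R23 : Refuted s23 := refuted_of_chkF (rcons R23_2 (rcons R23_1 rnil)) r23

theorem R24_0 : Refuted s24_0 := refuted_of_chkF rnil r24_0

theorem R24_1 : Refuted s24_1 := refuted_of_chkF rnil r24_1

theorem R24 : Refuted s24 := refuted_of_chkF (rcons R24_1 (rcons R24_0 rnil)) r24

theorem R25 : Refuted s25 := refuted_of_chkF rnil r25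

theorem R26 : Refuted s26 := refuted_of_chkF rnil r26

theorem R27 : Refuted s27 := refuted_of_chkF rnil r27

theorem R28 : Refuted s28 := refuted_of_chkF rnil r28

theorem R29 : Refuted s29 := refuted_of_chkF rnil r29

theorem all_refuted (n : ℕ) (h9 : 9 ≤ n) (h29 : n ≤ 29) : Refuted (rootSt n) := by
  interval_cases n
  · exact R9
  · exact R10
  · exact R11
  · exact R12
  · exact R13
  · exact R14
  · exact R15
  · exact R16
  · exact R17
  · exact R18
  · exact R19
  · exact R20
  · exact R21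
  · exact R22
  · exact R23
  · exact R24
  · exact R25
  · exact R26
  · exact R27
  · exact R28
  · exact R29

end Pool.Agent.K3
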