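import Mathlib
import Pool.Agent.Lib.MP_c11f22_co.Mg.G001

/-!
# Bit operations of the search tree
-/

set_option autoImplicit false

namespace Pool.Agent.K3

theorem St.eqb_eq {a b : St} (h : St.eqb a b = true) : a = b := by
  unfold St.eqb at h
  simp only [Bool.cond_eq_ite, Nat.beq_eq, Bool.ite_eq_true_distrib, if_false_right,
    Bool.false_eq_true] at h
  obtain ⟨h1, h2, h3, h4, h5, h6, h7, h8⟩ := h
  cases a
  cases b
  simp_all

section Bits

theorem dg_testBit (a i k : ℕ) : (dg a i).testBit k = (decide (k < 32) && a.testBit (32 * i + k)) := by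
  have h : (4294967295 : ℕ) = 2 ^ 32 - 1 := by norm_num
  show ((a >>> (32 * i)) &&& 4294967295).testBit k = _
  rw [Nat.testBit_land, Nat.testBit_shiftRight, h, Nat.testBit_two_pow_sub_one, Bool.and_comm]

theorem dg_lt (a i : ℕ) : dg a i < 2 ^ 32 := by
  show (a >>> (32 * i)) &&& 4294967295 < 2 ^ 32
  exact lt_of_le_of_lt Nat.and_le_right (by norm_num)

theorem setd_testBit {a i v j k : ℕ} (hv : v < 2 ^ 32) (hk : k < 32) :
    (setd a i v).testBit (32 * j + k) = if j = i then v.testBit k else a.testBit (32 * j + k) := by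
  have hx : (dg a i ^^^ v) < 2 ^ 32 := Nat.xor_lt_two_pow (dg_lt a i) hv
  have e : (setd a i v).testBit (32 * j + k) =
      (a.testBit (32 * j + k) ^^ (decide (32 * j + k ≥ 32 * i) && (dg a i ^^^ v).testBit (32 * j + k - 32 * i))) := by
    show (a ^^^ ((dg a i ^^^ v) <<< (32 * i))).testBit (32 * j + k) = _
    rw [Nat.testBit_xor, Nat.testBit_shiftLeft]
  rw [e]
  by_cases hji : j = i
  · subst hji
    simp only [if_true]
    have : 32 * j + k - 32 * j = k := by omega
    rw [this, Nat.testBit_xor, dg_testBit]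
    simp [hk]
  · rw [if_neg hji]
    rcases lt_or_gt_of_ne hji with h | h
    · have : ¬ (32 * j + k ≥ 32 * i) := by omega
      simp [this]
    · have h2 : 32 ≤ 32 * j + k - 32 * i := by omega
      have : (dg a i ^^^ v).testBit (32 * j + k - 32 * i) = false :=
        Nat.testBit_lt_two_pow (lt_of_lt_of_le hx (Nat.pow_le_pow_right (by norm_num) h2))
      simp [this]

theorem dg_setd {a i j v : ℕ} (hv : v < 2 ^ 32) : dg (setd a i v) j = if j = i then v else dg a j := by
  apply Nat.eq_of_testBit_eq
  intro k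
  rw [dg_testBit]
  by_cases hk : k < 32
  · rw [setd_testBit hv hk]
    simp only [hk, decide_true, Bool.true_and]
    split_ifs with h
    · rfl
    · rw [dg_testBit]; simp [hk]
  · simp only [hk, decide_false, Bool.false_and]
    split_ifs
    · exact (Nat.testBit_lt_two_pow (lt_of_lt_of_le hv (Nat.pow_le_pow_right (by norm_num) (by omega)))).symm
    · rw [dg_testBit]; simp [hk]

theorem dupr_testBit {a c q i k : ℕ} (hk : k < 32) :
    (dupr a c q).testBit (32 * i + k) = (a.testBit (32 * i + k) || (decide (i = q) && a.testBit (32 * c + k))) := by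
  show (a ||| ((dg a c) <<< (32 * q))).testBit (32 * i + k) = _
  rw [Nat.testBit_lor, Nat.testBit_shiftLeft]
  congr 1
  by_cases h : i = q
  · subst h
    have : 32 * i + k - 32 * i = k := by omega
    simp [this, dg_testBit, hk]
  · simp only [h, decide_false, Bool.false_and, Bool.and_eq_false_iff, decide_eq_false_iff_not]
    by_cases h2 : 32 * i + k ≥ 32 * q
    · right
      rw [dg_testBit]
      have : ¬ (32 * i + k - 32 * q < 32) := by omega
      simp [this]
    · exact Or.inl h2

theorem colMask_testBit {k : ℕ} (h : colMask.testBit k = true) : ∃ i < 32, k = 32 * i := by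
  have hk : k < 1024 := by
    by_contra hk
    have : colMask.testBit k = false := by
      apply Nat.testBit_lt_two_pow
      refine lt_of_lt_of_le ?_ (Nat.pow_le_pow_right (by norm_num) (not_lt.1 hk))
      decide +kernel
    rw [this] at h
    exact Bool.false_ne_true h
  have key : ∀ k < 1024, colMask.testBit k = true → k % 32 = 0 := by decide +kernel
  have := key k hk h
  exact ⟨k / 32, by omega, by omega⟩

theorem colMask_testBit' {i : ℕ} (hi : i < 32) : colMask.testBit (32 * i) = true := by
  have key : ∀ k < 32, colMask.testBit (32 * k) = true := by decide +kernel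
  exact key i hi

theorem bigCol_testBit {k : ℕ} (h : bigCol.testBit k = true) : ∃ i < 24, k = 768 * i := by
  have hk : k < 18432 := by
    by_contra hk
    have : bigCol.testBit k = false := by
      apply Nat.testBit_lt_two_pow
      refine lt_of_lt_of_le ?_ (Nat.pow_le_pow_right (by norm_num) (not_lt.1 hk))
      decide +kernel
    rw [this] at h
    exact Bool.false_ne_true h
  have key : ∀ i < 24, ∀ j < 768, bigCol.testBit (768 * i + j) = true → j = 0 := by decide +kernel
  have h2 := key (k / 768) (by omega) (k % 768) (Nat.mod_lt _ (by norm_num)) (by rwa [Nat.div_add_mod])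
  exact ⟨k / 768, by omega, by omega⟩

theorem rowMask_testBit (k : ℕ) : rowMask.testBit k = decide (k < 768) := by
  have h : ∀ n : ℕ, n = 768 → rowMask = 2 ^ n - 1 := by
    intro n hn
    subst hn
    decide +kernel
  obtain ⟨n, hn⟩ : ∃ n : ℕ, n = 768 := ⟨_, rfl⟩
  rw [h n hn, Nat.testBit_two_pow_sub_one, hn]

/-- membership in a copied matrix -/
theorem dupm_testBit {m c q i j : ℕ} (hj : j < 24) (hq : q < 24)
    (h : (dupm m c q).testBit (768 * i + 32 * j) = true) :
    m.testBit (768 * i + 32 * j) = true ∨ (i = q ∧ m.testBit (768 * c + 32 * j) = true) ∨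
      (j = q ∧ m.testBit (768 * i + 32 * c) = true) := by
  have e : (dupm m c q).testBit (768 * i + 32 * j) = (m.testBit (768 * i + 32 * j) ||
      ((decide (768 * i + 32 * j ≥ 768 * q) &&
          ((m >>> (768 * c)) &&& rowMask).testBit (768 * i + 32 * j - 768 * q)) ||
       (decide (768 * i + 32 * j ≥ 32 * q) &&
          ((m >>> (32 * c)) &&& bigCol).testBit (768 * i + 32 * j - 32 * q)))) := by
    show (m ||| (((m >>> (768 * c)) &&& rowMask) <<< (768 * q) |||
      ((m >>> (32 * c)) &&& bigCol) <<< (32 * q))).testBit (768 * i + 32 * j) = _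
    rw [Nat.testBit_lor, Nat.testBit_lor, Nat.testBit_shiftLeft, Nat.testBit_shiftLeft]
  rw [e] at h
  simp only [Bool.or_eq_true, Bool.and_eq_true, decide_eq_true_eq] at h
  rcases h with h | ⟨h1, h2⟩ | ⟨h1, h2⟩
  · exact Or.inl h
  · right; left
    rw [Nat.testBit_land, Nat.testBit_shiftRight, rowMask_testBit] at h2
    simp only [Bool.and_eq_true, decide_eq_true_eq] at h2
    obtain ⟨h2, h3⟩ := h2
    have hi : i = q := by omega
    subst hi
    refine ⟨rfl, ?_⟩
    have : 768 * c + (768 * i + 32 * j - 768 * i) = 768 * c + 32 * j := by omega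
    rwa [this] at h2
  · right; right
    rw [Nat.testBit_land, Nat.testBit_shiftRight] at h2
    simp only [Bool.and_eq_true] at h2
    obtain ⟨r, hr, hr2⟩ := bigCol_testBit h2.2
    have hri : r = i ∧ j = q := by omega
    obtain ⟨rfl, rfl⟩ := hri
    refine ⟨rfl, ?_⟩
    have : 32 * c + (768 * r + 32 * j - 32 * j) = 768 * r + 32 * c := by omega
    rw [this] at h2
    exact h2.1

theorem setm_testBit {m p c i j : ℕ} (hj : j < 24) (hp : p < 24) (hc : c < 24)
    (h : (setm m p c).testBit (768 * i + 32 * j) = true) :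
    m.testBit (768 * i + 32 * j) = true ∨ (i = p ∧ j = c) ∨ (i = c ∧ j = p) := by
  have e : (setm m p c).testBit (768 * i + 32 * j) = (m.testBit (768 * i + 32 * j) ||
      ((decide (768 * i + 32 * j ≥ 768 * p + 32 * c) &&
          (1 : ℕ).testBit (768 * i + 32 * j - (768 * p + 32 * c))) ||
       (decide (768 * i + 32 * j ≥ 768 * c + 32 * p) &&
          (1 : ℕ).testBit (768 * i + 32 * j - (768 * c + 32 * p))))) := by
    show (m ||| (1 <<< (768 * p + 32 * c) ||| 1 <<< (768 * c + 32 * p))).testBit (768 * i + 32 * j) = _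
    rw [Nat.testBit_lor, Nat.testBit_lor, Nat.testBit_shiftLeft, Nat.testBit_shiftLeft]
  rw [e] at h
  simp only [Bool.or_eq_true, Bool.and_eq_true, decide_eq_true_eq, Nat.testBit_one_eq_true_iff_self_eq_zero] at h
  rcases h with h | ⟨h1, h2⟩ | ⟨h1, h2⟩
  · exact Or.inl h
  · right; left; omega
  · right; right; omega

theorem testBit_one_shift {i k : ℕ} : (Nat.shiftLeft 1 i).testBit k = decide (k = i) := by
  show (1 <<< i).testBit k = _
  rw [Nat.testBit_shiftLeft]
  by_cases h : k = i
  · subst h; simp
  · simp only [h, decide_false, Bool.and_eq_false_iff, decide_eq_false_iff_not]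
    by_cases h2 : k ≥ i
    · right
      rw [Bool.eq_false_iff, Ne, Nat.testBit_one_eq_true_iff_self_eq_zero]
      omega
    · exact Or.inl h2

theorem fillRow_testBit {a c i k : ℕ} (hk : k < 32) :
    (fillRow a c).testBit (32 * i + k) = (a.testBit (32 * i + k) || decide (i = c)) := by
  have h : (4294967295 : ℕ) = 2 ^ 32 - 1 := by norm_num
  show (a ||| (4294967295 <<< (32 * c))).testBit (32 * i + k) = _
  rw [Nat.testBit_lor, Nat.testBit_shiftLeft, h, Nat.testBit_two_pow_sub_one]
  congr 1
  rw [← Bool.decide_and, decide_eq_decide]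
  omega

/-- digits of a multiple of `colMask` -/
theorem rep_testBit {m i k : ℕ} (hm : m < 2 ^ 32) (hi : i < 32) (hk : k < 32) :
    (Nat.mul m colMask).testBit (32 * i + k) = m.testBit k := by
  have key : ∀ i < 32, (colMask % 2 ^ (32 * i)) * (2 ^ 32 - 1) < 2 ^ (32 * i) ∧
      colMask / 2 ^ (32 * i) % 2 ^ 32 = 1 := by decide +kernel
  obtain ⟨h1, h2⟩ := key i hi
  set P := 2 ^ (32 * i) with hP
  have hPpos : 0 < P := by positivity
  have e1 : (m * colMask) / P = m * (colMask / P) := by
    conv_lhs => rw [← Nat.div_add_mod colMask P, mul_add, mul_left_comm]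
    rw [Nat.mul_add_div hPpos]
    have : m * (colMask % P) / P = 0 := by
      apply Nat.div_eq_of_lt
      calc m * (colMask % P) ≤ (2 ^ 32 - 1) * (colMask % P) := Nat.mul_le_mul_right _ (by omega)
        _ = (colMask % P) * (2 ^ 32 - 1) := mul_comm _ _
        _ < P := h1
    omega
  have e2 : (m * colMask) / P % 2 ^ 32 = m := by
    rw [e1, Nat.mul_mod, h2, mul_one, Nat.mod_mod, Nat.mod_eq_of_lt hm]
  have e3 : ((m * colMask) / P % 2 ^ 32).testBit k = (m * colMask).testBit (32 * i + k) := by
    rw [Nat.testBit_mod_two_pow, hP, ← Nat.shiftRight_eq_div_pow, Nat.testBit_shiftRight]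
    simp [hk]
  show (m * colMask).testBit (32 * i + k) = _
  rw [← e3, e2]

theorem lowR_testBit {T i k : ℕ} (hT : T < 32) (hi : i < 32) (hk : k < 32) :
    (lowR T).testBit (32 * i + k) = decide (k < T) := by
  have e : Nat.sub (Nat.shiftLeft 1 T) 1 = 2 ^ T - 1 := by
    show 1 <<< T - 1 = _
    rw [Nat.shiftLeft_eq, one_mul]
  unfold lowR
  rw [e, rep_testBit _ hi hk, Nat.testBit_two_pow_sub_one]
  exact lt_of_le_of_lt (Nat.sub_le _ _) (Nat.pow_lt_pow_right (by norm_num) hT)

theorem highMask_testBit {T k : ℕ} (hT : T < 32) (hk : k < 32) :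
    (Nat.sub 4294967296 (Nat.shiftLeft 2 T)).testBit k = decide (T < k) := by
  have key : ∀ T < 32, ∀ k < 32, (Nat.sub 4294967296 (Nat.shiftLeft 2 T)).testBit k = decide (T < k) := by
    decide +kernel
  exact key T hT k hk

theorem highMask_lt (T : ℕ) : Nat.sub 4294967296 (Nat.shiftLeft 2 T) < 2 ^ 32 := by
  have h : 0 < Nat.shiftLeft 2 T := by
    show 0 < 2 <<< T
    rw [Nat.shiftLeft_eq]; positivity
  show 4294967296 - Nat.shiftLeft 2 T < 2 ^ 32
  omega

theorem highR_testBit {T i k : ℕ} (hT : T < 32) (hi : i < 32) (hk : k < 32) :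
    (highR T).testBit (32 * i + k) = decide (T < k) := by
  unfold highR
  rw [rep_testBit (highMask_lt T) hi hk, highMask_testBit hT hk]

theorem neR_testBit {T i k : ℕ} (hT : T < 32) (hi : i < 32) (hk : k < 32) :
    (neR T).testBit (32 * i + k) = decide (k ≠ T) := by
  unfold neR
  have key : ∀ T < 32, Nat.xor 4294967295 (Nat.shiftLeft 1 T) < 2 ^ 32 := by decide +kernel
  have key2 : ∀ T < 32, ∀ k < 32, (Nat.xor 4294967295 (Nat.shiftLeft 1 T)).testBit k = decide (k ≠ T) := by
    decide +kernel
  rw [rep_testBit (key T hT) hi hk, key2 T hT k hk]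

theorem lowMask_testBit {T k : ℕ} : (Nat.sub (Nat.shiftLeft 1 T) 1).testBit k = decide (k < T) := by
  have e : Nat.sub (Nat.shiftLeft 1 T) 1 = 2 ^ T - 1 := by
    show 1 <<< T - 1 = _
    rw [Nat.shiftLeft_eq, one_mul]
  rw [e, Nat.testBit_two_pow_sub_one]

theorem lowB_testBit {w T k : ℕ} : (lowB w T).testBit k = (w.testBit k && decide (k < T)) := by
  show (w &&& (Nat.sub (Nat.shiftLeft 1 T) 1)).testBit k = _
  rw [Nat.testBit_land, lowMask_testBit]

theorem highB_testBit {w T k : ℕ} : (highB w T).testBit k = (w.testBit k && decide (T ≤ k)) := by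
  show ((w >>> T) <<< T).testBit k = _
  rw [Nat.testBit_shiftLeft, Nat.testBit_shiftRight]
  by_cases h : T ≤ k
  · have : T + (k - T) = k := by omega
    simp [h, this]
  · simp [h]

theorem unR_testBit {s : St} {k : ℕ} : (unR s).testBit k = (s.al.testBit k && !s.pm.testBit k) := by
  show (s.al ^^^ (s.al &&& s.pm)).testBit k = _
  rw [Nat.testBit_xor, Nat.testBit_land]
  cases s.al.testBit k <;> cases s.pm.testBit k <;> rfl

theorem colOf_testBit {m c i : ℕ} (hi : i < 32) : (colOf m c).testBit (32 * i) = m.testBit (32 * i + c) := by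
  show ((m >>> c) &&& colMask).testBit (32 * i) = _
  rw [Nat.testBit_land, Nat.testBit_shiftRight, colMask_testBit' hi, Bool.and_true, add_comm]

theorem colOf_testBit_imp {m c k : ℕ} (h : (colOf m c).testBit k = true) : ∃ i < 32, k = 32 * i := by
  have e : (colOf m c).testBit k = (m.testBit (c + k) && colMask.testBit k) := by
    show ((m >>> c) &&& colMask).testBit k = _
    rw [Nat.testBit_land, Nat.testBit_shiftRight]
  rw [e, Bool.and_eq_true] at h
  exact colMask_testBit h.2

theorem fold1_self {a k j : ℕ} (h : a.testBit j = true) : (fold1 a k).testBit j = true := by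
  show (a ||| (a >>> k)).testBit j = true
  rw [Nat.testBit_lor, h, Bool.true_or]

theorem fold1_shift {a k j : ℕ} (h : a.testBit (k + j) = true) : (fold1 a k).testBit j = true := by
  show (a ||| (a >>> k)).testBit j = true
  rw [Nat.testBit_lor, Nat.testBit_shiftRight, h, Bool.or_true]

theorem foldR_testBit {a i j : ℕ} (hi : i < 32) (hj : j < 32) (h : a.testBit (32 * i + j) = true) :
    (foldR a).testBit j = true := by
  have h1 : (fold1 a 512).testBit (32 * (i % 16) + j) = true := by
    rcases (by omega : i = i % 16 ∨ 32 * i + j = 512 + (32 * (i % 16) + j)) with e | e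
    · apply fold1_self; rwa [← e]
    · apply fold1_shift; rwa [← e]
  have h2 : (fold1 (fold1 a 512) 256).testBit (32 * (i % 8) + j) = true := by
    rcases (by omega : i % 16 = i % 8 ∨ 32 * (i % 16) + j = 256 + (32 * (i % 8) + j)) with e | e
    · apply fold1_self; rwa [← e]
    · apply fold1_shift; rwa [← e]
  have h3 : (fold1 (fold1 (fold1 a 512) 256) 128).testBit (32 * (i % 4) + j) = true := by
    rcases (by omega : i % 8 = i % 4 ∨ 32 * (i % 8) + j = 128 + (32 * (i % 4) + j)) with e | e
    · apply fold1_self; rwa [← e]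
    · apply fold1_shift; rwa [← e]
  have h4 : (fold1 (fold1 (fold1 (fold1 a 512) 256) 128) 64).testBit (32 * (i % 2) + j) = true := by
    rcases (by omega : i % 4 = i % 2 ∨ 32 * (i % 4) + j = 64 + (32 * (i % 2) + j)) with e | e
    · apply fold1_self; rwa [← e]
    · apply fold1_shift; rwa [← e]
  have h5 : (fold1 (fold1 (fold1 (fold1 (fold1 a 512) 256) 128) 64) 32).testBit j = true := by
    rcases (by omega : i % 2 = 0 ∨ 32 * (i % 2) + j = 32 + j) with e | e
    · apply fold1_self; rw [e] at h4; simpa using h4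
    · apply fold1_shift; rwa [← e]
  have hm : (4294967295 : ℕ) = 2 ^ 32 - 1 := by norm_num
  show ((fold1 (fold1 (fold1 (fold1 (fold1 a 512) 256) 128) 64) 32) &&& 4294967295).testBit j = true
  rw [Nat.testBit_land, h5, hm, Nat.testBit_two_pow_sub_one]
  simp [hj]

end Bits

end Pool.Agent.K3
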