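import Pool.Agent.Lib.MP_c11f22_co.Mg.G005
import Pool.Agent.Lib.MP_c11f22_co.Mg.G003

/-!
# Soundness of the Farkas leaf
-/

set_option autoImplicit false
set_option linter.unusedSectionVars false
set_option linter.unusedVariables false

namespace Pool.Agent.K3

open Finset

variable {V : Type*} [Fintype V] [DecidableEq V] {G : SimpleGraph V} [DecidableRel G.Adj]

/-- the packed matrix of bits -/
def bmat (b : ℕ → ℕ → Bool) : ℕ := encM (fun i j => (b i j).toNat)

theorem dg_enc {n : ℕ → ℕ} (hn : ∀ j < 24, n j < 2 ^ 32) (k : ℕ) :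
    dg (encb 32 24 n) k = if k < 24 then n k else 0 := by
  rw [dg_eq_dgb, dgb_encb hn]

theorem crossr_zero (k : ℕ) : crossr k 0 = 0 := by
  show (0 <<< (768 * k)) + ((0 * kst) &&& mst) <<< (32 * k) = 0
  rw [Nat.zero_mul, Nat.zero_and, Nat.zero_shiftLeft, Nat.zero_shiftLeft]

theorem cross_zero (k v : ℕ) : cross 0 k v = 0 := by
  show crossr k (0 * v - (v &&& (4294967295 <<< (32 * k)))) = 0
  rw [Nat.zero_mul, Nat.zero_sub, crossr_zero]

theorem land_one (e : ℕ) : Nat.land e 1 = 0 ∨ Nat.land e 1 = 1 := by
  have h : Nat.land e 1 = e % 2 := Nat.and_one_is_mod e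
  rw [h]
  omega

/-- the terms of the fields (a) and the twin fields -/
theorem pTerm_row {c : V → ℕ} {b1 b0 : ℕ → ℕ → Bool} {al : ℕ} (H : Ctx G c b1 b0 al) {e : ℕ} (he : e < 2 ^ 20) :
    IsRow G c (pTerm (bmat b1) (encb 32 24 (nn c)) al e) 0 (2 ^ 25) := by
  have hnn : ∀ j < 24, nn c j < 2 ^ 32 := fun j hj => by
    have := nn_le H.hn hj
    omega
  have hv : e >>> 12 ≤ 255 := by
    rw [Nat.shiftRight_eq_div_pow]
    omega
  have hst : fst1 e = 0 ∨ fst1 e = 1 := land_one _
  have key : IsRow G c (Nat.rec
      (aBody (bmat b1) (encb 32 24 (nn c)) (chi al (fk e)) (fk e) (dg (encb 32 24 (nn c)) (fk e))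
        (row (bmat b1) (fk e)) (selz (row (bmat b1) (fk e)) (encb 32 24 (nn c))) (fst1 e))
      (fun _ _ => tGuard (dg (encb 32 24 (nn c)) (fk e)) (fk e) (fi e)
        (tBody (dg (encb 32 24 (nn c)) (fi e)) (fi e) (dg (row (bmat b1) (fk e)) (fi e))
          (selz (row (bmat b1) (fk e)) (encb 32 24 (nn c))))) (Nat.land e 1)) 0 98304 := by
    rcases land_one e with h | h
    · rw [h]
      show IsRow G c (aBody _ _ _ _ _ _ _ _) 0 98304
      by_cases hk : fk e < 24
      · rw [dg_enc hnn, if_pos hk, bmat, row_encM b1 hk, selz_nn H.hn]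
        exact row_a H hk hst
      · rw [dg_enc hnn, if_neg hk]
        have : aBody (bmat b1) (encb 32 24 (nn c)) (chi al (fk e)) (fk e) 0 (row (bmat b1) (fk e))
            (selz (row (bmat b1) (fk e)) (encb 32 24 (nn c))) (fst1 e) = 0 := by
          rcases hst with hs | hs
          · rw [hs]
            show 0 * _ + (0 * _) <<< 18432 + 0 = 0
            rw [Nat.zero_mul, Nat.zero_mul, Nat.zero_shiftLeft]
          · rw [hs]
            show 0 * _ + (0 * _) <<< 18432 + cross 0 _ _ = 0
            rw [Nat.zero_mul, Nat.zero_mul, Nat.zero_shiftLeft, cross_zero]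
        rw [this]
        exact IsRow.zero c _
    · rw [h]
      show IsRow G c (tGuard _ _ _ _) 0 98304
      unfold tGuard
      by_cases h1 : dg (encb 32 24 (nn c)) (fk e) = 1
      · by_cases h2 : fk e = fi e
        · have : Nat.beq (fk e) (fi e) = true := by
            rw [Nat.beq_eq]
            exact h2
          rw [this]
          cases Nat.beq (dg (encb 32 24 (nn c)) (fk e)) 1 <;> exact IsRow.zero c _
        · have e1 : Nat.beq (dg (encb 32 24 (nn c)) (fk e)) 1 = true := by
            rw [Nat.beq_eq]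
            exact h1
          have e2 : Nat.beq (fk e) (fi e) = false := by
            rcases hb : Nat.beq (fk e) (fi e) with _ | _
            · rfl
            · rw [Nat.beq_eq] at hb
              exact absurd hb h2
          rw [e1, e2, cond_true, cond_false]
          rw [dg_enc hnn] at h1
          have hp : fk e < 24 := by
            by_contra hp
            rw [if_neg hp] at h1
            exact absurd h1 (by norm_num)
          rw [if_pos hp] at h1
          by_cases hi : fi e < 24
          · rw [dg_enc hnn, if_pos hi, bmat, row_encM b1 hp, selz_nn H.hn,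
              dg_enc (n := fun j => (b1 (fk e) j).toNat)
                (fun j _ => lt_of_le_of_lt (Bool.toNat_le _) (by norm_num)), if_pos hi]
            exact row_t H hp hi h2 h1
          · rw [dg_enc hnn, if_neg hi]
            have : tBody 0 (fi e) (dg (row (bmat b1) (fk e)) (fi e))
                (selz (row (bmat b1) (fk e)) (encb 32 24 (nn c))) = 0 := by
              show cross 0 _ _ + (2 * 0 * _) <<< 18432 = 0
              rw [cross_zero, Nat.mul_zero, Nat.zero_mul, Nat.zero_shiftLeft]
            rw [this]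
            exact IsRow.zero c _
      · have e1 : Nat.beq (dg (encb 32 24 (nn c)) (fk e)) 1 = false := by
          rcases hb : Nat.beq (dg (encb 32 24 (nn c)) (fk e)) 1 with _ | _
          · rfl
          · rw [Nat.beq_eq] at hb
            exact absurd hb h1
        rw [e1]
        exact IsRow.zero c _
  have h := (IsRow.mul key hv).mono (show 255 * 98304 ≤ 2 ^ 25 by norm_num)
  rw [Nat.mul_zero] at h
  exact h

/-- the terms of the fields (b) -/
theorem bTerm_row {c : V → ℕ} {b1 b0 : ℕ → ℕ → Bool} {al : ℕ} (H : Ctx G c b1 b0 al) {e : ℕ} (he : e < 2 ^ 20) :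
    IsRow G c (bTerm (bmat b1) (bmat b0) (encb 32 24 (nn c)) e) (qTerm (bmat b1) (encb 32 24 (nn c)) al e) (2 ^ 25) := by
  have hnn : ∀ j < 24, nn c j < 2 ^ 32 := fun j hj => by
    have := nn_le H.hn hj
    omega
  have hv : e >>> 12 ≤ 255 := by
    rw [Nat.shiftRight_eq_div_pow]
    omega
  have hst : fst1 e = 0 ∨ fst1 e = 1 := land_one _
  have key : IsRow G c (bBody (bmat b0) (encb 32 24 (nn c)) (fk e) (dg (encb 32 24 (nn c)) (fk e))
        (row (bmat b1) (fk e)) (selz (row (bmat b1) (fk e)) (encb 32 24 (nn c))) (fst1 e))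
      (qBody (clo al (fk e)) (dg (encb 32 24 (nn c)) (fk e)) (selz (row (bmat b1) (fk e)) (encb 32 24 (nn c)))
        (Nat.mod (selz (row (bmat b1) (fk e)) (encb 32 24 (nn c))) 4294967295)) 98304 := by
    by_cases hk : fk e < 24
    · rw [dg_enc hnn, if_pos hk, bmat, bmat, row_encM b1 hk, selz_nn H.hn]
      have hs := sum_sel H.hn (b1 (fk e))
      have hm : Nat.mod (encb 32 24 (fun j => if b1 (fk e) j then nn c j else 0)) 4294967295 =
          ∑ j ∈ range 24, (if b1 (fk e) j then nn c j else 0) := by
        show encb 32 24 (fun j => if b1 (fk e) j then nn c j else 0) % 4294967295 = _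
        rw [show (4294967295 : ℕ) = 2 ^ 32 - 1 by norm_num]
        exact encb_mod _ (by omega)
      rw [hm]
      exact row_b H hk hst
    · rw [dg_enc hnn, if_neg hk]
      have h1 : bBody (bmat b0) (encb 32 24 (nn c)) (fk e) 0 (row (bmat b1) (fk e))
          (selz (row (bmat b1) (fk e)) (encb 32 24 (nn c))) (fst1 e) = 0 := by
        rcases hst with hs | hs
        · rw [hs]
          show (56 * 0) <<< 18432 + 0 = 0
          rw [Nat.mul_zero, Nat.zero_shiftLeft]
        · rw [hs]
          show (56 * 0) <<< 18432 + cross 0 _ _ = 0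
          rw [Nat.mul_zero, Nat.zero_shiftLeft, cross_zero]
      have h2 : qBody (clo al (fk e)) 0 (selz (row (bmat b1) (fk e)) (encb 32 24 (nn c)))
          (Nat.mod (selz (row (bmat b1) (fk e)) (encb 32 24 (nn c))) 4294967295) = 0 := by
        show 0 * _ + (0 * _) <<< 18432 = 0
        rw [Nat.zero_mul, Nat.zero_mul, Nat.zero_shiftLeft]
      rw [h1, h2]
      exact IsRow.zero c _
  exact (IsRow.mul key hv).mono (show 255 * 98304 ≤ 2 ^ 25 by norm_num)

theorem field_lt (x : ℕ) : Nat.land x 1048575 < 2 ^ 20 :=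
  lt_of_le_of_lt Nat.and_le_right (by norm_num)

theorem fsum_row {c : V → ℕ} {f g : ℕ → ℕ} {B : ℕ} (h : ∀ e < 2 ^ 20, IsRow G c (f e) (g e) B) (fuel : ℕ) :
    ∀ x, IsRow G c (fsum f fuel x) (fsum g fuel x) (fuel * B) := by
  induction fuel with
  | zero =>
    intro x
    exact IsRow.zero c _
  | succ fuel ih =>
    intro x
    cases x with
    | zero => exact IsRow.zero c _
    | succ x =>
      have h1 := (h (Nat.land (x + 1) 1048575) (field_lt _)).add (ih (Nat.shiftRight (x + 1) 20))
      rw [show (fuel + 1) * B = B + fuel * B by ring]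
      exact h1

theorem fsum_zero (fuel : ℕ) : ∀ x, fsum (fun _ => 0) fuel x = 0 := by
  induction fuel with
  | zero =>
    intro x
    rfl
  | succ fuel ih =>
    intro x
    cases x with
    | zero => rfl
    | succ x =>
      show 0 + fsum (fun _ => 0) fuel (Nat.shiftRight (x + 1) 20) = 0
      rw [ih]

/-- a total row contradicts the final comparison -/
theorem fin_false {c : V → ℕ} {b1 b0 : ℕ → ℕ → Bool} {al : ℕ} (H : Ctx G c b1 b0 al) {P Q B : ℕ}
    (hB : B < 2 ^ 31 - 1) (hR : IsRow G c P Q B) (h : fin1 P Q (bmat b1) (bmat b0) = true) : False := by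
  obtain ⟨p, q, pt, qt, h1, h2, h3, h4, h5⟩ := hR
  rw [h1, h2] at h
  have hf := fin_sound (p := fun i j => p i j * cap c i j) (q := fun i j => q i j * cap c i j)
    (lt_of_le_of_lt h3 hB) (lt_of_le_of_lt h4 hB) b1 b0 rfl rfl h
  have hpt : dsum (fun i j => (if b1 i j then p i j * cap c i j else 0) + q i j * EE G c i j) ≤
      dsum (fun i j => ((if b1 i j then q i j * cap c i j else 0) +
        (if b1 i j || b0 i j then 0 else q i j * cap c i j - p i j * cap c i j)) + p i j * EE G c i j) := by
    apply dsum_le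
    intro i _ j _
    by_cases k1 : b1 i j = true
    · have e : EE G c i j = cap c i j := EE_full fun x y hx hy _ => H.h1 x y (by rw [hx, hy]; exact k1)
      simp only [k1, if_true, Bool.true_or, e]
      omega
    · by_cases k0 : b0 i j = true
      · have e : EE G c i j = 0 := EE_empty fun x y hx hy => H.h0 x y (by rw [hx, hy]; exact k0)
        simp [k1, k0, e]
      · simp only [k1, k0, Bool.false_eq_true, if_false, Bool.or_self, zero_add]
        have hle := EE_le_cap (G := G) c i j
        rcases Nat.le_total (q i j) (p i j) with hqp | hqp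
        · have := Nat.mul_le_mul_right (EE G c i j) hqp
          omega
        · obtain ⟨r, hr⟩ := Nat.exists_eq_add_of_le hqp
          rw [hr, add_mul, add_mul, Nat.add_sub_cancel_left]
          have := Nat.mul_le_mul_left r hle
          omega
  rw [dsum_add, dsum_add, dsum_add] at hpt
  unfold dsum at hpt h5
  beta_reduce at hpt h5
  clear h1 h2 h
  omega

/-- soundness of the check -/
theorem leafC_false {c : V → ℕ} {b1 b0 : ℕ → ℕ → Bool} {al : ℕ} (H : Ctx G c b1 b0 al) {u as bs xp xq : ℕ}
    (hx : IsRow G c xp xq 131072)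
    (h : leafC (bmat b1) (bmat b0) (encb 32 24 (nn c)) al u as bs xp xq = true) : False := by
  have r0 : IsRow G c (p0 (encb 32 24 (nn c)) (stride (encb 32 24 (nn c))) (uvec (encb 32 24 (nn c)) u))
      (q0 (encb 32 24 (nn c)) (stride (encb 32 24 (nn c)))) 131072 := by
    rw [uvec_eq H.hn]
    exact row_deg H (fun j => uu_le u j)
  have r1 : IsRow G c (fsum (pTerm (bmat b1) (encb 32 24 (nn c)) al) 16 as) 0 (16 * 2 ^ 25) := by
    have := fsum_row (G := G) (c := c) (f := pTerm (bmat b1) (encb 32 24 (nn c)) al) (g := fun _ => 0)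
      (fun e he => pTerm_row H he) 16 as
    rw [fsum_zero] at this
    exact this
  have r2 := fsum_row (G := G) (c := c) (f := bTerm (bmat b1) (bmat b0) (encb 32 24 (nn c)))
    (g := qTerm (bmat b1) (encb 32 24 (nn c)) al) (fun e he => bTerm_row H he) 16 bs
  have r := ((r0.add r1).add (r2.add hx))
  rw [Nat.add_zero, ← Nat.add_assoc (q0 _ _)] at r
  exact fin_false H (by norm_num) r h

/-- the entries used by the leaf -/
def offb (m i j : ℕ) : Bool := !decide (i = j) && m.testBit (768 * i + 32 * j)

theorem land_off (m : ℕ) : Nat.land m off = bmat (offb m) := by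
  show m &&& off = encM (fun i j => (offb m i j).toNat)
  apply dgb_ext (b := 32) (by norm_num)
  intro t
  rw [dgb_and, off_eq, dgb_encM (fun i _ j _ => by split_ifs <;> norm_num),
    dgb_encM (fun i _ j _ => lt_of_le_of_lt (Bool.toNat_le _) (by norm_num))]
  by_cases ht : t < 576
  · simp only [ht, if_true]
    unfold offb
    by_cases h : t / 24 = t % 24
    · simp [h]
    · simp only [h, if_false, decide_false, Bool.not_false, Bool.true_and]
      rw [and_one_eq, dgb_testBit, show 768 * (t / 24) + 32 * (t % 24) = 32 * t + 0 by omega]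
      simp
  · simp [ht]

theorem land_sz {s : St} {c : V → ℕ} (h : RealC G s c) :
    Nat.land s.sz (Nat.sub (Nat.shiftLeft 1 (Nat.mul 32 s.nc)) 1) = encb 32 24 (nn c) := by
  have hnc := h.nc24
  have hz : ∀ t, s.nc ≤ t → nn c t = 0 := by
    intro t ht
    unfold nn
    rw [card_eq_zero, filter_eq_empty_iff]
    intro x _ hx
    have := h.clt x
    omega
  have hs : ∀ t, t < s.nc → dgb 32 s.sz t = nn c t := by
    intro t ht
    rw [← dg_eq_dgb]
    exact (h.size t ht).symm
  have hnn : ∀ t < 24, nn c t < 2 ^ 32 := by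
    intro t _
    by_cases ht : t < s.nc
    · rw [← hs t ht]
      exact dgb_lt _ _ _
    · rw [hz t (not_lt.1 ht)]
      norm_num
  show s.sz &&& (1 <<< (32 * s.nc) - 1) = _
  rw [Nat.one_shiftLeft, Nat.and_two_pow_sub_one_eq_mod]
  apply dgb_ext (b := 32) (by norm_num)
  intro t
  rw [dgb_encb hnn]
  have e : dgb 32 (s.sz % 2 ^ (32 * s.nc)) t = if t < s.nc then dgb 32 s.sz t else 0 := by
    apply Nat.eq_of_testBit_eq
    intro r
    rw [dgb_testBit, Nat.testBit_mod_two_pow]
    by_cases ht : t < s.nc
    · rw [if_pos ht, dgb_testBit]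
      by_cases hr : r < 32
      · have : 32 * t + r < 32 * s.nc := by omega
        simp [hr, this]
      · simp [hr]
    · rw [if_neg ht]
      have : ¬ (32 * t + r < 32 * s.nc) := by omega
      simp [this]
  rw [e]
  by_cases ht : t < s.nc
  · rw [if_pos ht, if_pos (by omega), hs t ht]
  · rw [if_neg ht, hz t (not_lt.1 ht)]
    simp

theorem ctx_of_real {s : St} {c : V → ℕ} (hdeg : ∀ x, G.degree x = 8) (hinj : Function.Injective (tri G))
    (h : RealC G s c) : Ctx G c (offb s.m1) (offb s.m0) s.al := by
  have hc : ∀ x, c x < 24 := fun x => lt_of_lt_of_le (h.clt x) h.nc24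
  refine ⟨hdeg, hinj, hc, ?_, ?_, ?_, ?_⟩
  · have h1 := sum_n hc (fun _ => 1)
    simp only [one_mul, sum_const, smul_eq_mul, mul_one] at h1
    rw [← h1]
    have h2 : (univ : Finset V).card ≤ (range 32).card :=
      card_le_card_of_injOn (tri G) (fun x _ => by
        rw [mem_coe, mem_range]
        exact h.t32 x) (fun x _ y _ e => hinj e)
    rwa [card_range] at h2
  · intro x y hb
    unfold offb at hb
    rw [Bool.and_eq_true, Bool.not_eq_true', decide_eq_false_iff_not] at hb
    exact h.one x y (fun e => hb.1 (by rw [e])) hb.2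
  · intro x y hb
    unfold offb at hb
    rw [Bool.and_eq_true, Bool.not_eq_true', decide_eq_false_iff_not] at hb
    exact h.zero x y (fun e => hb.1 (by rw [e])) hb.2
  · intro x
    rw [dg_testBit, h.al x]
    simp [h.t32 x]

theorem leafD_false {s : St} {c : V → ℕ} (hdeg : ∀ x, G.degree x = 8) (hinj : Function.Injective (tri G))
    (h : RealC G s c) {d nb xp xq : ℕ} (hx : IsRow G c xp xq 131072) (hl : leafD s d nb xp xq = true) : False := by
  unfold leafD at hl
  rw [land_off, land_off, land_sz h] at hl
  exact leafC_false (ctx_of_real hdeg hinj h) hx hl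

/-- soundness of the Farkas leaf -/
theorem leafOK_sound {s : St} {c : V → ℕ} (hdeg : ∀ x, G.degree x = 8) (hinj : Function.Injective (tri G))
    (h : RealC G s c) {d : ℕ} (hl : leafOK s d = true) : False :=
  leafD_false hdeg hinj h (IsRow.zero c _) hl

theorem land255 (d : ℕ) : Nat.land d 255 ≤ 255 := Nat.and_le_right

theorem leafLow_sound {s : St} {c : V → ℕ} (hdeg : ∀ x, G.degree x = 8) (hinj : Function.Injective (tri G))
    (h : RealC G s c) {p i k d : ℕ} (hp : p < s.nc) (hi : i < s.nc) (hpi : p ≠ i) (h1 : dg s.sz p = 1)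
    (hl : leafLow s p i k d = true) : k < EE G c p i := by
  by_contra hE
  have hnc := h.nc24
  have hsp : nn c p = 1 := (h.size p hp).trans h1
  have hsi : nn c i = dg s.sz i := h.size i hi
  have hr := row_low (ctx_of_real hdeg hinj h) (show p < 24 by omega) (show i < 24 by omega) hpi hsp (land255 d)
    (not_lt.1 hE)
  rw [hsi] at hr
  exact leafD_false hdeg hinj h hr hl

theorem leafHigh_sound {s : St} {c : V → ℕ} (hdeg : ∀ x, G.degree x = 8) (hinj : Function.Injective (tri G))
    (h : RealC G s c) {p i k d : ℕ} (hp : p < s.nc) (hi : i < s.nc) (hpi : p ≠ i) (h1 : dg s.sz p = 1)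
    (hl : leafHigh s p i k d = true) : EE G c p i < k := by
  by_contra hE
  have hnc := h.nc24
  have hsp : nn c p = 1 := (h.size p hp).trans h1
  have hsi : nn c i = dg s.sz i := h.size i hi
  have hr := row_high (ctx_of_real hdeg hinj h) (show p < 24 by omega) (show i < 24 by omega) hpi hsp (land255 d)
    (not_lt.1 hE)
  rw [hsi] at hr
  exact leafD_false hdeg hinj h hr hl

end Pool.Agent.K3
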