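import Pool.Agent.Lib.MP_c11f22_co.Mg.G004
import Pool.Agent.Lib.MP_c11f22_co.K3.LeafSound
import Pool.Agent.Lib.MP_c11f22_co.Mg.G001

/-!
# Soundness of the checker with the Farkas leaves
-/

set_option autoImplicit false

namespace Pool.Agent.K3

theorem refuted_of_chkF {K : List St} {C : Cert} {s : St} (hK : ∀ t ∈ K, Refuted t)
    (h : chkF K C s = true) : Refuted s :=
  refuted_of_chk (LF := leafOK) (LL := leafLow) (LG := leafHigh)
    (fun _ _ _ hreg hinj _ _ _ h hc => leafOK_sound hreg hinj hc h)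
    (fun _ _ _ hreg hinj _ _ _ _ _ _ h hc hp hi hpi hd => leafLow_sound hreg hinj hc hp hi hpi hd h)
    (fun _ _ _ hreg hinj _ _ _ _ _ _ h hc hp hi hpi hd => leafHigh_sound hreg hinj hc hp hi hpi hd h)
    hK h

theorem rnil : ∀ t ∈ ([] : List St), Refuted t := fun _ h => absurd h List.not_mem_nil

theorem rcons {s : St} {l : List St} (h : Refuted s) (hl : ∀ t ∈ l, Refuted t) :
    ∀ t ∈ s :: l, Refuted t := List.forall_mem_cons.2 ⟨h, hl⟩

end Pool.Agent.K3
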